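import Mathlib

set_option autoImplicit false

/-!
Kuratowski's free set theorem, for set mappings on finite sets with values of size `< lam`.
-/

namespace Pool.Agent.MP_2218cd_lc

open Cardinal Order

universe u

/-- A set `Y₀` of infinite size `μ` is contained in a set of size `μ` closed under a set mapping
on finite sets whose values have size at most `μ`. -/
theorem exists_closed {X : Type u} (μ : Cardinal.{u}) (hμ : ℵ₀ ≤ μ) (F : Finset X → Set X)
    (hF : ∀ A, #(F A) ≤ μ) (Y₀ : Set X) (hY : #Y₀ = μ) :
    ∃ Y : Set X, #Y = μ ∧ ∀ A : Finset X, (A : Set X) ⊆ Y → F A ⊆ Y := by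
  classical
  let step : Set X → Set X := fun Y => Y ∪ ⋃ A : Finset Y, F (A.map (Function.Embedding.subtype _))
  let Yn : ℕ → Set X := fun n => step^[n] Y₀
  have hsucc : ∀ n, Yn (n + 1) = step (Yn n) := fun n => Function.iterate_succ_apply' _ _ _
  have hcard : ∀ n, #(Yn n) ≤ μ := by
    intro n
    induction n with
    | zero => exact hY.le
    | succ n ih =>
      rw [hsucc]
      refine (mk_union_le _ _).trans ?_
      refine (add_le_add ih ?_).trans (add_eq_self hμ).le
      refine (mk_iUnion_le _).trans ?_
      have h1 : #(Finset (Yn n)) ≤ μ := by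
        rcases finite_or_infinite (Yn n) with h | h
        · have := (Cardinal.lt_aleph0_of_finite (Finset (Yn n))).le
          exact this.trans hμ
        · rw [mk_finset_of_infinite]; exact ih
      refine (mul_le_mul' h1 (ciSup_le' fun A => hF _)).trans (mul_eq_self hμ).le
  have hmono : ∀ n, Yn n ⊆ Yn (n + 1) := by
    intro n
    rw [hsucc]
    exact Set.subset_union_left
  have hmono' : Monotone Yn := monotone_nat_of_le_succ hmono
  refine ⟨⋃ n, Yn n, ?_, ?_⟩
  · apply le_antisymm
    · have h1 : (⋃ n, Yn n) = ⋃ n : ULift.{u} ℕ, Yn n.down := by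
        ext x
        simp only [Set.mem_iUnion]
        exact ⟨fun ⟨n, h⟩ => ⟨⟨n⟩, h⟩, fun ⟨n, h⟩ => ⟨n.down, h⟩⟩
      rw [h1]
      refine (mk_iUnion_le _).trans ?_
      have h2 : #(ULift.{u} ℕ) ≤ μ := by simpa using hμ
      exact (mul_le_mul' h2 (ciSup_le' fun n => hcard _)).trans (mul_eq_self hμ).le
    · rw [← hY]
      exact mk_le_mk_of_subset (Set.subset_iUnion Yn 0)
  · intro A hA
    obtain ⟨n, hn⟩ : ∃ n, (A : Set X) ⊆ Yn n := by
      have : ∀ B : Finset X, (B : Set X) ⊆ ⋃ n, Yn n → ∃ n, (B : Set X) ⊆ Yn n := by
        intro B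
        induction B using Finset.induction_on with
        | empty => intro _; exact ⟨0, by simp⟩
        | insert a B ha ih =>
          intro h
          obtain ⟨n, hn⟩ := ih (fun x hx => h (by simp [Finset.mem_coe.1 hx]))
          have ha' : a ∈ ⋃ n, Yn n := h (by simp)
          obtain ⟨m, hm⟩ := Set.mem_iUnion.1 ha'
          refine ⟨max n m, ?_⟩
          intro x hx
          rw [Finset.coe_insert, Set.mem_insert_iff] at hx
          rcases hx with rfl | hx
          · exact hmono' (le_max_right n m) hm
          · exact hmono' (le_max_left n m) (hn hx)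
      exact this A hA
    intro x hx
    refine Set.mem_iUnion.2 ⟨n + 1, ?_⟩
    rw [hsucc]
    refine Or.inr (Set.mem_iUnion.2 ⟨A.subtype (· ∈ Yn n), ?_⟩)
    have : (A.subtype (· ∈ Yn n)).map (Function.Embedding.subtype _) = A := by
      rw [Finset.subtype_map]
      exact Finset.filter_true_of_mem fun x hx => hn hx
    rw [this]
    exact hx

/-- **Kuratowski's free set theorem**: if `X` has size at least `lam^{+m}`, every set mapping on
finite subsets of `X` with values of size `< lam` has a free set with `m + 1` elements. -/
theorem exists_free (lam : Cardinal.{u}) (hl : ℵ₀ ≤ lam) (m : ℕ) :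
    ∀ (X : Type u) (_ : (succ^[m] lam) ≤ #X) (F : Finset X → Set X) (_ : ∀ A, #(F A) < lam),
      ∃ S : Finset X, S.card = m + 1 ∧ ∀ (g : X) (A : Finset X), g ∈ S → g ∉ A → A ⊆ S →
        A.card = m → g ∉ F A := by
  classical
  induction m with
  | zero =>
    intro X hX F hF
    have hne : F ∅ ≠ Set.univ := by
      intro h
      have := hF ∅
      rw [h, mk_univ] at this
      exact absurd this (not_lt.2 hX)
    obtain ⟨g, hg⟩ := (Set.ne_univ_iff_exists_notMem _).1 hne
    refine ⟨{g}, by simp, ?_⟩
    intro g' A hg' _ _ hA
    rw [Finset.mem_singleton] at hg'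
    rw [Finset.card_eq_zero] at hA
    subst hg' hA
    exact hg
  | succ m ih =>
    intro X hX F hF
    set μ := succ^[m] lam with hμd
    have hlμ : lam ≤ μ := by
      have : ∀ n, lam ≤ succ^[n] lam := by
        intro n
        induction n with
        | zero => exact le_rfl
        | succ n ih => rw [Function.iterate_succ_apply']; exact ih.trans (le_succ _)
      exact this m
    have hμ : ℵ₀ ≤ μ := hl.trans hlμ
    have hX' : succ μ ≤ #X := by
      rw [hμd, ← Function.iterate_succ_apply' succ m lam]; exact hX
    obtain ⟨Y₀, hY₀⟩ := le_mk_iff_exists_set.1 ((le_succ μ).trans hX')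
    obtain ⟨Y, hY, hcl⟩ := exists_closed μ hμ F (fun A => (hF A).le.trans hlμ) Y₀ hY₀
    have hne : Y ≠ Set.univ := by
      intro h
      rw [h, mk_univ] at hY
      rw [hY] at hX'
      exact absurd hX' (not_le.2 (lt_succ μ))
    obtain ⟨b, hb⟩ := (Set.ne_univ_iff_exists_notMem _).1 hne
    obtain ⟨S, hS, hfree⟩ := ih Y hY.ge
      (fun A => Subtype.val ⁻¹' F (insert b (A.map (Function.Embedding.subtype _))))
      (fun A => lt_of_le_of_lt (mk_preimage_of_injective _ _ Subtype.val_injective) (hF _))
    set S' := S.map (Function.Embedding.subtype (· ∈ Y)) with hS'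
    have hbS : b ∉ S' := by
      intro h
      obtain ⟨y, _, hy⟩ := Finset.mem_map.1 h
      exact hb (hy ▸ y.2)
    refine ⟨insert b S', by rw [Finset.card_insert_of_notMem hbS, hS', Finset.card_map, hS], ?_⟩
    intro g A hg hgA hAS hAc
    rcases Finset.mem_insert.1 hg with rfl | hg
    · -- `g = b`, so `A ⊆ S' ⊆ Y`
      intro hgF
      have hAY : (A : Set X) ⊆ Y := by
        intro x hx
        rcases Finset.mem_insert.1 (hAS hx) with rfl | h
        · exact absurd hx hgA
        · obtain ⟨y, _, hy⟩ := Finset.mem_map.1 h
          exact hy ▸ y.2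
      exact hb (hcl A hAY hgF)
    · obtain ⟨y, hyS, hyg⟩ := Finset.mem_map.1 hg
      have hyg' : (y : X) = g := hyg
      subst hyg'
      -- `b ∈ A`, by counting
      have hbA : b ∈ A := by
        by_contra hbA
        have hA : A ⊆ S'.erase y := by
          intro x hx
          refine Finset.mem_erase.2 ⟨fun h => hgA (h ▸ hx), ?_⟩
          rcases Finset.mem_insert.1 (hAS hx) with rfl | h
          · exact absurd hx hbA
          · exact h
        have h1 := Finset.card_le_card hA
        rw [Finset.card_erase_of_mem hg, hS', Finset.card_map, hS, hAc] at h1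
        omega
      set A' := A.subtype (· ∈ Y) with hA'
      have hmapA : A'.map (Function.Embedding.subtype _) = A.erase b := by
        ext x
        rw [Finset.mem_map, Finset.mem_erase]
        constructor
        · rintro ⟨z, hz, rfl⟩
          refine ⟨fun h => hb ?_, (Finset.mem_subtype.1 hz)⟩
          rw [← h]; exact z.2
        · rintro ⟨hxb, hx⟩
          have hxS : x ∈ S' := by
            rcases Finset.mem_insert.1 (hAS hx) with h | h
            · exact absurd h hxb
            · exact h
          obtain ⟨z, _, rfl⟩ := Finset.mem_map.1 hxS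
          exact ⟨z, Finset.mem_subtype.2 hx, rfl⟩
      have hins : insert b (A'.map (Function.Embedding.subtype _)) = A := by
        rw [hmapA, Finset.insert_erase hbA]
      have := hfree y A' hyS (fun h => hgA (Finset.mem_subtype.1 h)) ?_ ?_
      · rw [Set.mem_preimage, hins] at this
        exact this
      · intro z hz
        have hz' : (z : X) ∈ insert b S' := hAS (Finset.mem_subtype.1 hz)
        rcases Finset.mem_insert.1 hz' with h | h
        · exact absurd (h ▸ z.2) hb
        · obtain ⟨w, hw, hwz⟩ := Finset.mem_map.1 h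
          have : w = z := Subtype.ext hwz
          exact this ▸ hw
      · have := congrArg Finset.card hmapA
        rw [Finset.card_map, Finset.card_erase_of_mem hbA, hAc] at this
        simpa using this

end Pool.Agent.MP_2218cd_lc
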