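import Mathlib
import Pool.Agent.MP_2218cd_lc.Free

set_option autoImplicit false

/-!
Infinitely branching trees of monochromatic sumsets.
-/

namespace Pool.Agent.MP_2218cd_lc

open Cardinal Order

universe u

/-- Every sum `x + y` of two members `x, y` (possibly equal) of `s` has colour `i`; in other
words `s + s` is monochromatic of colour `i`. -/
def Mono {V : Type u} [Add V] {r : ℕ} (c : V → Fin r) (i : Fin r) (s : Set V) : Prop :=
  ∀ x ∈ s, ∀ y ∈ s, c (x + y) = i

/-- `Branch c i κ n s`: the set `s` is the root of a tree of height `n` in which one adds a new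
vector at each step, every node has at least `κ` successors, and the sets `t` at the top level
all have `t + t` monochromatic of colour `i`. -/
def Branch {V : Type u} [Add V] {r : ℕ} (c : V → Fin r) (i : Fin r) (κ : Cardinal.{u}) :
    ℕ → Set V → Prop
  | 0, s => Mono c i s
  | n + 1, s => κ ≤ #{y : V // y ∉ s ∧ Branch c i κ n (insert y s)}

section basic

variable {V : Type u} [Add V] {r : ℕ} {c : V → Fin r} {i : Fin r}

theorem Mono.subset {s t : Set V} (h : Mono c i t) (hst : s ⊆ t) : Mono c i s :=
  fun x hx y hy => h x (hst hx) y (hst hy)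

theorem Branch.down {κ : Cardinal.{u}} (hκ : 1 ≤ κ) {m : ℕ} :
    ∀ {s : Set V}, Branch c i κ (m + 1) s → Branch c i κ m s := by
  induction m with
  | zero =>
    intro s h
    have h1 : (1 : Cardinal.{u}) ≤ #{y : V // y ∉ s ∧ Branch c i κ 0 (insert y s)} := hκ.trans h
    have h2 := Cardinal.one_le_iff_ne_zero.1 h1
    obtain ⟨y, _, hy⟩ := Cardinal.mk_ne_zero_iff.1 h2
    exact Mono.subset (c := c) hy (Set.subset_insert _ _)
  | succ m ih =>
    intro s h
    refine le_trans h ?_
    exact Cardinal.mk_subtype_mono fun y hy => ⟨hy.1, ih hy.2⟩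

theorem Branch.mono {κ : Cardinal.{u}} (hκ : 1 ≤ κ) {m n : ℕ} (hmn : m ≤ n) {s : Set V}
    (h : Branch c i κ n s) : Branch c i κ m s := by
  induction n, hmn using Nat.le_induction with
  | base => exact h
  | succ n _ ih => exact ih (h.down hκ)

theorem Branch.mono_card {κ κ' : Cardinal.{u}} (hκ : κ' ≤ κ) {m : ℕ} :
    ∀ {s : Set V}, Branch c i κ m s → Branch c i κ' m s := by
  induction m with
  | zero => intro s h; exact h
  | succ m ih =>
    intro s h
    exact hκ.trans (le_trans h (Cardinal.mk_subtype_mono fun y hy => ⟨hy.1, ih hy.2⟩))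

theorem Branch.isMono {κ : Cardinal.{u}} (hκ : 1 ≤ κ) {m : ℕ} {s : Set V}
    (h : Branch c i κ m s) : Mono c i s := h.mono hκ (Nat.zero_le m)

end basic

section card

theorem mk_union_lt {X : Type u} {lam : Cardinal.{u}} (hl : ℵ₀ ≤ lam) {S T : Set X}
    (hS : #S < lam) (hT : #T < lam) : #(S ∪ T : Set X) < lam :=
  (mk_union_le S T).trans_lt (add_lt_of_lt hl hS hT)

theorem mk_finset_biUnion_lt {X : Type u} {I : Type*} {lam : Cardinal.{u}} (hl : ℵ₀ ≤ lam)
    (J : Finset I) (T : I → Set X) (hT : ∀ j, #(T j) < lam) : #(⋃ j ∈ J, T j : Set X) < lam := by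
  classical
  induction J using Finset.induction_on with
  | empty =>
    have h : (⋃ j ∈ (∅ : Finset I), T j : Set X) = ∅ := by simp
    rw [h, mk_eq_zero]
    exact lt_of_lt_of_le aleph0_pos hl
  | insert a J _ ih =>
    rw [Finset.set_biUnion_insert]
    exact mk_union_lt hl (hT a) ih

theorem mk_support_lt {ι : Type u} {lam : Cardinal.{u}} (hl : ℵ₀ ≤ lam) (T : Set (ι →₀ ℤ))
    (hT : #T < lam) : #(⋃ y : T, ((y : ι →₀ ℤ).support : Set ι) : Set ι) < lam := by
  rcases T.finite_or_infinite with hf | hinf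
  · have hfin : (⋃ y : T, ((y : ι →₀ ℤ).support : Set ι) : Set ι).Finite := by
      have := hf.to_subtype
      exact Set.finite_iUnion fun y => Finset.finite_toSet _
    exact hfin.lt_aleph0.trans_le hl
  · refine lt_of_le_of_lt (mk_iUnion_le_sum_mk.trans ?_) hT
    have := hinf.to_subtype
    refine (Cardinal.sum_le_sum _ (fun _ => ℵ₀) fun y => ?_).trans ?_
    · exact (Finset.finite_toSet _).lt_aleph0.le
    · rw [Cardinal.sum_const, lift_aleph0, Cardinal.lift_id]
      exact mul_le_of_le (aleph0_le_mk T) le_rfl (aleph0_le_mk T)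

end card

end Pool.Agent.MP_2218cd_lc
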