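import Mathlib
import Pool.Agent.MP_2218cd_lc.Tree

set_option autoImplicit false

/-!
Infinitely branching trees of monochromatic sumsets in free abelian groups of large rank: the main
argument.
-/

namespace Pool.Agent.MP_2218cd_lc

open Cardinal Order Combinatorics

universe u

section main

variable {ι : Type u}

/-- The vectors supported on `A` with coordinates `0`, `1`, `2`. -/
noncomputable def Vec (A : Finset ι) : Finset (ι →₀ ℤ) := A.finsupp fun _ => {0, 1, 2}

theorem mem_Vec {A : Finset ι} {x : ι →₀ ℤ} :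
    x ∈ Vec A ↔ x.support ⊆ A ∧ ∀ j ∈ A, x j ∈ ({0, 1, 2} : Finset ℤ) :=
  Finset.mem_finsupp_iff

variable {r : ℕ} (c : (ι →₀ ℤ) → Fin r) (lam : Cardinal.{u}) (n : ℕ)

open Classical in
/-- The height, capped at `n`, of the tree above `s`. -/
noncomputable def rk (i : Fin r) (s : Set (ι →₀ ℤ)) : ℕ :=
  Nat.findGreatest (fun m => Branch c i lam m s) n

/-- The exceptional extensions of `s`. -/
def exc (i : Fin r) (s : Set (ι →₀ ℤ)) : Set (ι →₀ ℤ) :=
  {y | rk c lam n i s < n ∧ y ∉ s ∧ Branch c i lam (rk c lam n i s) (insert y s)}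

theorem rk_spec {i : Fin r} {s : Set (ι →₀ ℤ)} (h : Mono c i s) :
    Branch c i lam (rk c lam n i s) s := by
  classical
  unfold rk
  exact Nat.findGreatest_spec (P := fun m => Branch c i lam m s) (Nat.zero_le n) h

theorem le_rk {i : Fin r} {s : Set (ι →₀ ℤ)} {m : ℕ} (hm : m ≤ n) (h : Branch c i lam m s) :
    m ≤ rk c lam n i s := by
  classical
  unfold rk
  exact Nat.le_findGreatest hm h

theorem mk_exc_lt (hl : ℵ₀ ≤ lam) (i : Fin r) (s : Set (ι →₀ ℤ)) : #(exc c lam n i s) < lam := by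
  by_cases hr : rk c lam n i s < n
  · by_contra hcon
    have h1 : lam ≤ #(exc c lam n i s) := not_lt.1 hcon
    have h2 : Branch c i lam (rk c lam n i s + 1) s := by
      refine h1.trans ?_
      exact Cardinal.mk_le_mk_of_subset fun y hy => ⟨hy.2.1, hy.2.2⟩
    have := le_rk c lam n hr h2
    omega
  · have h : exc c lam n i s = ∅ := by
      ext y
      simp [exc, hr]
    rw [h, mk_eq_zero]
    exact lt_of_lt_of_le aleph0_pos hl

open Classical in
/-- The set mapping to which Kuratowski's theorem is applied. -/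
def FF (A : Finset ι) : Set ι :=
  ⋃ y : (⋃ p ∈ (Finset.univ : Finset (Fin r)) ×ˢ (Vec A).powerset,
    exc c lam n p.1 (p.2 : Set (ι →₀ ℤ)) : Set (ι →₀ ℤ)), ((y : ι →₀ ℤ).support : Set ι)

theorem mk_FF_lt (hl : ℵ₀ ≤ lam) (A : Finset ι) : #(FF c lam n A) < lam :=
  mk_support_lt hl _ (mk_finset_biUnion_lt hl _ _ fun _ => mk_exc_lt c lam n hl _ _)

theorem mem_FF {A : Finset ι} {i : Fin r} {s : Finset (ι →₀ ℤ)} (hs : s ⊆ Vec A)
    {y : ι →₀ ℤ} (hy : y ∈ exc c lam n i (s : Set (ι →₀ ℤ))) {g : ι} (hg : y g ≠ 0) :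
    g ∈ FF c lam n A := by
  classical
  refine Set.mem_iUnion.2 ⟨⟨y, ?_⟩, Finset.mem_coe.2 (Finsupp.mem_support_iff.2 hg)⟩
  refine Set.mem_iUnion₂.2 ⟨(i, s), ?_, hy⟩
  simp only [Finset.mem_product, Finset.mem_univ, Finset.mem_powerset, true_and]
  exact hs

end main

/-- The integer attached to a letter. -/
def lt (a : Fin 3) : ℤ := ((a : ℕ) : ℤ)

theorem lt_mem (a : Fin 3) : lt a ∈ ({0, 1, 2} : Finset ℤ) := by
  fin_cases a <;> simp [lt]

/-- The vector with coordinates `lt (w j)` at the places `σ j`. -/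
noncomputable def hv {ι : Type u} {H : ℕ} (σ : Fin H ↪ ι) (w : Fin H → Fin 3) : ι →₀ ℤ :=
  ∑ j, Finsupp.single (σ j) (lt (w j))

theorem hv_apply {ι : Type u} {H : ℕ} (σ : Fin H ↪ ι) (w : Fin H → Fin 3) (j : Fin H) :
    hv σ w (σ j) = lt (w j) := by
  classical
  rw [hv, Finsupp.finsetSum_apply, Finset.sum_eq_single j]
  · simp
  · intro k _ hk
    rw [Finsupp.single_apply, if_neg]
    exact fun h => hk (σ.injective h)
  · simp

theorem hv_apply_of_notMem {ι : Type u} {H : ℕ} (σ : Fin H ↪ ι) (w : Fin H → Fin 3) {g : ι}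
    (hg : ∀ j, σ j ≠ g) : hv σ w g = 0 := by
  classical
  rw [hv, Finsupp.finsetSum_apply]
  refine Finset.sum_eq_zero fun j _ => ?_
  rw [Finsupp.single_apply, if_neg (hg j)]

/-- The main theorem: in dimension `lam^{+m}`, `m` depending only on `r` and `n`, every
`r`-colouring admits a `lam`-branching tree of height `n` of monochromatic sumsets. -/
theorem exists_branch (r n : ℕ) : ∃ m : ℕ, ∀ (lam : Cardinal.{u}), ℵ₀ ≤ lam → ∀ ι : Type u,
    (succ^[m] lam) ≤ #ι → ∀ c : (ι →₀ ℤ) → Fin r, ∃ i, Branch c i lam n ∅ := by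
  classical
  obtain ⟨H, hH⟩ := Subspace.exists_mono_in_high_dimension_fin (Fin 3) (Fin r) (Fin n)
  refine ⟨H, fun lam hl ι hι c => ?_⟩
  by_contra hcon
  push Not at hcon
  obtain ⟨S, hS, hfree⟩ := exists_free lam hl H ι hι (FF c lam n) (mk_FF_lt c lam n hl)
  -- an enumeration of `H` members of `S`
  let σ : Fin H ↪ ι := ((Fin.castLEEmb (Nat.le_succ H)).trans
    (S.equivFinOfCardEq hS).symm.toEmbedding).trans (Function.Embedding.subtype _)
  have hσS : ∀ j, σ j ∈ S := fun j => ((S.equivFinOfCardEq hS).symm (Fin.castLE (Nat.le_succ H) j)).2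
  obtain ⟨l, i₀, hl0⟩ := hH fun w => c (hv σ w + hv σ w)
  let e : Fin n → Fin n → Fin 3 := fun k => Pi.single k 2
  let x : Fin n → ι →₀ ℤ := fun k => hv σ (l (e k))
  have hsum : ∀ k k', c (x k + x k') = i₀ := by
    intro k k'
    let w' : Fin n → Fin 3 := if k = k' then e k else fun t => if t = k ∨ t = k' then 1 else 0
    have hw : x k + x k' = hv σ (l w') + hv σ (l w') := by
      ext g
      by_cases hg : ∃ j, σ j = g
      · obtain ⟨j, rfl⟩ := hg
        simp only [Finsupp.add_apply, x, hv_apply]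
        by_cases hk : k = k'
        · subst hk
          simp [w']
        · simp only [w', if_neg hk, Subspace.coe_apply]
          cases hj : l.idxFun j with
          | inl a => simp
          | inr t =>
            simp only [Sum.elim_inr, e]
            by_cases h1 : t = k
            · subst h1
              simp [hk, lt]
            · by_cases h2 : t = k'
              · subst h2
                simp [h1, lt]
              · simp [h1, h2, lt]
      · have hg' : ∀ j, σ j ≠ g := fun j hj => hg ⟨j, hj⟩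
        simp [x, hv_apply_of_notMem σ _ hg']
    rw [hw]
    exact hl0 w'
  -- the new coordinates
  have hnew : ∀ k, ∃ g ∈ S, x k g ≠ 0 ∧ ∀ k', k' ≠ k → x k' g = 0 := by
    intro k
    obtain ⟨j, hj⟩ := l.proper k
    refine ⟨σ j, hσS j, ?_, fun k' hk' => ?_⟩
    · simp [x, hv_apply, Subspace.coe_apply, hj, e, lt]
    · simp [x, hv_apply, Subspace.coe_apply, hj, e, lt, hk'.symm]
  have hinj : ∀ k k', k ≠ k' → x k ≠ x k' := by
    intro k k' hk h
    obtain ⟨g, _, h1, h2⟩ := hnew k
    exact h1 (h ▸ h2 k' (Ne.symm hk))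
  have hsupp : ∀ k g, x k g ≠ 0 → g ∈ S := by
    intro k g hg
    by_contra hgS
    exact hg (hv_apply_of_notMem σ _ fun j hj => hgS (hj ▸ hσS j))
  have hval : ∀ k g, x k g ∈ ({0, 1, 2} : Finset ℤ) := by
    intro k g
    by_cases hg : ∃ j, σ j = g
    · obtain ⟨j, rfl⟩ := hg
      simp only [x, hv_apply]
      exact lt_mem _
    · rw [show x k g = 0 from hv_apply_of_notMem σ _ fun j hj => hg ⟨j, hj⟩]
      simp
  let s : ℕ → Finset (ι →₀ ℤ) := fun k => (Finset.univ.filter fun j : Fin n => (j : ℕ) < k).image x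
  have hmono : ∀ k, Mono c i₀ (s k : Set (ι →₀ ℤ)) := by
    intro k y hy z hz
    simp only [s, Finset.coe_image, Set.mem_image] at hy hz
    obtain ⟨j, _, rfl⟩ := hy
    obtain ⟨j', _, rfl⟩ := hz
    exact hsum j j'
  have hlam1 : (1 : Cardinal.{u}) ≤ lam := one_le_aleph0.trans hl
  have hkey : ∀ k, k ≤ n → rk c lam n i₀ (s k : Set (ι →₀ ℤ)) + k < n := by
    intro k
    induction k with
    | zero =>
      intro _
      have hs0 : ((s 0 : Finset (ι →₀ ℤ)) : Set (ι →₀ ℤ)) = ∅ := by simp [s]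
      rw [hs0, Nat.add_zero]
      by_contra h
      have h1 : n ≤ rk c lam n i₀ (∅ : Set (ι →₀ ℤ)) := not_lt.1 h
      have h2 := rk_spec c lam n (i := i₀) (s := (∅ : Set (ι →₀ ℤ)))
        (fun y hy => absurd hy (Set.notMem_empty y))
      exact hcon i₀ (h2.mono hlam1 h1)
    | succ k ih =>
      intro hk
      have ih' := ih (by omega)
      let kk : Fin n := ⟨k, hk⟩
      have hs1 : ((s (k + 1) : Finset (ι →₀ ℤ)) : Set (ι →₀ ℤ)) = insert (x kk) (s k : Set _) := by
        ext y
        simp only [s, Finset.coe_image, Set.mem_image, Finset.coe_filter, Finset.mem_univ,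
          true_and, Set.mem_ofPred_eq, Set.mem_insert_iff]
        constructor
        · rintro ⟨j, hj, rfl⟩
          by_cases h : (j : ℕ) = k
          · exact Or.inl (congrArg x (Fin.ext h))
          · exact Or.inr ⟨j, by omega, rfl⟩
        · rintro (rfl | ⟨j, hj, rfl⟩)
          · exact ⟨kk, Nat.lt_succ_self k, rfl⟩
          · exact ⟨j, by omega, rfl⟩
      have hxs : x kk ∉ (s k : Set (ι →₀ ℤ)) := by
        intro h
        simp only [s, Finset.coe_image, Set.mem_image, Finset.coe_filter, Finset.mem_univ,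
          true_and, Set.mem_ofPred_eq] at h
        obtain ⟨j, hj, hjk⟩ := h
        refine hinj j kk (fun h => ?_) hjk
        rw [h] at hj
        exact absurd hj (lt_irrefl k)
      have hnb : ¬ Branch c i₀ lam (rk c lam n i₀ (s k : Set _)) (insert (x kk) (s k : Set _)) := by
        intro hb
        obtain ⟨g, hgS, hg1, hg2⟩ := hnew kk
        refine hfree g (S.erase g) hgS (Finset.notMem_erase g S) (Finset.erase_subset g S)
          (by rw [Finset.card_erase_of_mem hgS, hS]; rfl) ?_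
        refine mem_FF c lam n (i := i₀) (s := s k) ?_ (y := x kk) ⟨by omega, hxs, hb⟩ hg1
        intro y hy
        simp only [s, Finset.mem_image, Finset.mem_filter, Finset.mem_univ, true_and] at hy
        obtain ⟨j, hj, rfl⟩ := hy
        refine mem_Vec.2 ⟨fun g' hg' => ?_, fun g' _ => hval j g'⟩
        have hg'' := Finsupp.mem_support_iff.1 hg'
        refine Finset.mem_erase.2 ⟨fun h => hg'' ?_, hsupp j g' hg''⟩
        rw [h]
        refine hg2 j fun h => ?_
        rw [h] at hj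
        exact absurd hj (lt_irrefl k)
      have hsp := rk_spec c lam n (hmono (k + 1))
      rw [hs1] at hsp ⊢
      by_contra hcon2
      exact hnb (hsp.mono hlam1 (by omega))
  have := hkey n le_rfl
  omega

/-- Transport of a tree along an injective additive map. -/
theorem Branch.map {V W : Type u} [AddCommMonoid V] [AddCommMonoid W] {r : ℕ} (f : V →+ W)
    (hf : Function.Injective f) (c : W → Fin r) (i : Fin r) (κ : Cardinal.{u}) (n : ℕ) :
    ∀ s : Set V, Branch (fun v => c (f v)) i κ n s → Branch c i κ n (f '' s) := by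
  induction n with
  | zero =>
    rintro s h _ ⟨x, hx, rfl⟩ _ ⟨y, hy, rfl⟩
    rw [← map_add]
    exact h x hx y hy
  | succ n ih =>
    intro s h
    refine le_trans h ?_
    refine mk_le_of_injective (f := fun y => ⟨f y.1, ?_, ?_⟩) ?_
    · rintro ⟨z, hz, hzy⟩
      exact y.2.1 (hf hzy ▸ hz)
    · rw [← Set.image_insert_eq]
      exact ih _ y.2.2
    · intro a b hab
      exact Subtype.ext (hf (congrArg Subtype.val hab))

/-- The general form: abelian groups that contain a free abelian group of rank `lam^{+m}`. -/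
theorem exists_branch_group (r n : ℕ) : ∃ m : ℕ, ∀ (lam : Cardinal.{u}), ℵ₀ ≤ lam →
    ∀ (ι A : Type u) [AddCommGroup A] (f : (ι →₀ ℤ) →+ A), Function.Injective f →
    (succ^[m] lam) ≤ #ι → ∀ c : A → Fin r, ∃ i, Branch c i lam n ∅ := by
  obtain ⟨m, hm⟩ := exists_branch.{u} r n
  refine ⟨m, fun lam hl ι A _ f hf hι c => ?_⟩
  obtain ⟨i, hi⟩ := hm lam hl ι hι fun v => c (f v)
  refine ⟨i, ?_⟩
  have := Branch.map f hf c i lam n ∅ hi
  rwa [Set.image_empty] at this

theorem succ_iterate_aleph (k m : ℕ) : succ^[m] (ℵ_ (k : Ordinal.{u})) = ℵ_ ((k + m : ℕ) : Ordinal.{u}) := by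
  induction m with
  | zero => simp
  | succ m ih =>
    rw [Function.iterate_succ_apply', ih, succ_aleph]
    congr 1

theorem exists_le_aleph {lam : Cardinal.{u}} (h : lam < ℵ_ Ordinal.omega0) :
    ∃ k : ℕ, lam ≤ ℵ_ (k : Ordinal.{u}) := by
  rw [Cardinal.aleph_limit Ordinal.isSuccLimit_omega0] at h
  have : Nonempty (Set.Iio Ordinal.omega0.{u}) := ⟨⟨0, Ordinal.omega0_pos⟩⟩
  obtain ⟨a, ha⟩ := exists_lt_of_lt_ciSup h
  obtain ⟨k, hk⟩ := Ordinal.lt_omega0.1 a.2
  exact ⟨k, by rw [← hk]; exact ha.le⟩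

/-- One colour for all finite heights and all branching numbers below `ℵ_ω`. -/
theorem exists_branch_aleph (ι A : Type u) [AddCommGroup A] (f : (ι →₀ ℤ) →+ A)
    (hf : Function.Injective f) (hι : ℵ_ Ordinal.omega0 ≤ #ι) (r : ℕ) (c : A → Fin r) :
    ∃ i, ∀ (n : ℕ) (lam : Cardinal.{u}), lam < ℵ_ Ordinal.omega0 → Branch c i lam n ∅ := by
  have h1 : ∀ k : ℕ, ∃ i, Branch c i (ℵ_ (k : Ordinal.{u})) k ∅ := by
    intro k
    obtain ⟨m, hm⟩ := exists_branch_group.{u} r k
    refine hm (ℵ_ (k : Ordinal.{u})) (aleph0_le_aleph _) ι A f hf ?_ c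
    rw [succ_iterate_aleph]
    exact (aleph_le_aleph.2 (Ordinal.natCast_lt_omega0 _).le).trans hι
  choose g hg using h1
  obtain ⟨i, hi⟩ := Finite.exists_infinite_fiber g
  refine ⟨i, fun n lam hlam => ?_⟩
  obtain ⟨k₀, hk₀⟩ := exists_le_aleph hlam
  obtain ⟨k, hk, hk'⟩ := (Set.infinite_coe_iff.1 hi).exists_gt (max n k₀)
  have h2 := hg k
  rw [show g k = i from hk] at h2
  have h3 : (1 : Cardinal.{u}) ≤ ℵ_ (k : Ordinal.{u}) := one_le_aleph0.trans (aleph0_le_aleph _)
  have h4 := h2.mono h3 (le_trans (le_max_left n k₀) hk'.le)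
  refine h4.mono_card (hk₀.trans (aleph_le_aleph.2 ?_))
  exact_mod_cast (le_trans (le_max_right n k₀) hk'.le)

/-- Fans: the first consequence of the existence of trees. -/
theorem Branch.fan {V : Type u} [AddCommMonoid V] {r : ℕ} {c : V → Fin r} {i : Fin r}
    {κ : Cardinal.{u}} (hκ : 1 ≤ κ) (n : ℕ) : ∀ s : Set V, Branch c i κ (n + 1) s →
    ∃ t : Set V, s ⊆ t ∧ (t \ s).encard = n ∧ Branch c i κ 1 t := by
  induction n with
  | zero => exact fun s h => ⟨s, subset_rfl, by simp, h⟩
  | succ n ih =>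
    intro s h
    have h1 : (1 : Cardinal.{u}) ≤ #{y : V // y ∉ s ∧ Branch c i κ (n + 1) (insert y s)} :=
      hκ.trans h
    obtain ⟨y, hy, hb⟩ := Cardinal.mk_ne_zero_iff.1 (Cardinal.one_le_iff_ne_zero.1 h1)
    obtain ⟨t, ht, hc, hbt⟩ := ih _ hb
    refine ⟨t, (Set.subset_insert y s).trans ht, ?_, hbt⟩
    have h2 : t \ s = insert y (t \ insert y s) := by
      ext z
      simp only [Set.mem_sdiff, Set.mem_insert_iff]
      constructor
      · rintro ⟨hz, hzs⟩
        by_cases h : z = y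
        · exact Or.inl h
        · exact Or.inr ⟨hz, fun h' => h'.elim h hzs⟩
      · rintro (rfl | ⟨hz, hzs⟩)
        · exact ⟨ht (Set.mem_insert _ _), hy⟩
        · exact ⟨hz, fun h => hzs (Or.inr h)⟩
    rw [h2, Set.encard_insert_of_notMem (by simp), hc]
    norm_num

end Pool.Agent.MP_2218cd_lc
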